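import Pool.Agent.H78.Newt4

open Pool.Agent.H78.Newt Polynomial

theorem Pool.Agent.Results.MP_db5e86_an.No.result :
    (∀ P Q : ℂ[X], SimpleZeros P → ∀ z, (den P Q).eval z = 0 → P.eval z ≠ 0) ∧
    ¬ ∃ (a : ℂ) (P Q : ℂ[X]), a ≠ 0 ∧ SimpleZeros P ∧ Q ≠ 0 ∧ NonConst a P Q ∧ Shares a P Q :=
  main
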